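import Mathlib
import Pool.Agent.TH131.WMF.Kato

/-!
# Kato's log monodromy-weight conjecture in bounded degree

Fix `n` and `d`. There are finitely many projective SNCL schemes `𝒴_b`, `b ∈ T`, over log points of
positive characteristic such that for all families of log points `S`, of any characteristic, and
all projective SNCL schemes `X` over `S` with fibres of degree at most `d` in `ℙ^n` there is a
subset `T'` of `T` such that for all prime numbers `ℓ` which are invertible on `S` and for all `w`
Kato's conjecture for `H^w` of `X` is equivalent to Kato's conjecture for `H^w` of the schemes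
`𝒴_b`, `b ∈ T'`. The residue characteristics of the `𝒴_b`, `b ∈ T'`, are residue characteristics of
`S`; so Kato's conjecture holds for all `X` of degree at most `d` if no residue characteristic of
`S` belongs to a finite set which depends only on `n` and `d`.

* `F`, `hl`, `hh`: the family of all projective SNCL schemes of degree at most `d` over log points,
  its cohomology, which is lisse, and Hodge theory in characteristic `0`.
* `𝒮`, `hb`: the projective SNCL schemes over families of log points, and proper base change.
-/

set_option autoImplicit false

namespace Pool.Agent.Results.MP_f8720a_ag.BoundedDegree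

open Pool.Agent.TH131.WMF

/-- Kato's conjecture for all projective SNCL schemes of bounded degree over families of log points
is equivalent to Kato's conjecture for finitely many of them, of positive characteristic. -/
theorem result {K : ℕ → Type} [∀ ℓ, Field (K ℓ)] {F : LogFamily K} (hl : F.IsLisse)
    (hh : F.HodgeTheory) (𝒮 : SNCLSchemes F) (hb : 𝒮.BaseChange) :
    ∃ T : Set (PrimeSpectrum F.A), T.Finite ∧ (∀ b ∈ T, PosChar b) ∧
      ∀ X : 𝒮.Obj, ∃ T' ⊆ T, (∀ b ∈ T', ∃ s, b ≤ 𝒮.pt X s) ∧
        ∀ ℓ : ℕ, 𝒮.IsInvertible X ℓ → ∀ w : ℕ, 𝒮.Kato X ℓ w ↔ ∀ b ∈ T', F.Kato b ℓ w :=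
  kato_finite hl hh 𝒮 hb

end Pool.Agent.Results.MP_f8720a_ag.BoundedDegree
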