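import Pool.Agent.TH177.MW.LogMain

/-!
# MP_f8720a_ag: the conjecture of Kato and generators of the log cohomology ring

Let `X` be a projective SNCL scheme of dimension `n` over a log point `S` (of any characteristic
different from `ℓ`), `H ^ j` its Kummer log etale cohomology group of degree `j` with coefficients in an
algebraic closure `E` of `ℚ_ℓ`, `P` its weight filtration and `N` its monodromy operator. The
conjecture of Kato for `H ^ j` says that `N ^ e : gr^P_(j + e) H ^ j → gr^P_(j - e) H ^ j` is bijective
for all `e ≥ 1`. The scheme has a model over a ring of finite type over `ℤ`; specialization to a closed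
point of the base with `q` elements gives a Frobenius operator `F` on `H ^ *`, compatible with cup
products, with `N F = q F N`, and such that the eigenvalues of `F` on `gr^P_k` are Weil numbers of
weight `k`.

Let `Q` be a family of equivariant maps `φ : M → H ^ (deg φ)` from modules `M` which are mw pure of
weight `deg φ`, i.e. for which the conjecture holds. For example:

* pullback maps from projective SNCL schemes `Y` of dimension at most two, and Gysin maps and
  correspondences from such schemes, with the twist; here the conjecture is known;
* Chern classes of vector bundles, which are maps `E (- j) → H ^ (2 j)`;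
* the inclusion of any `H ^ j` for which the conjecture is known.

The classes obtained from the images of these maps by sums, cup products, and equivariant maps
`H ^ i → H ^ j (r)`, `j = i + 2 r`, are called *generated*. The theorem says: for `j + k = 2 n` the
conjecture holds for `H ^ j` if and only if for `t = j, k` and all `i > 0` the space `P (t - i) H ^ t` is
contained in the sum of the space of generated classes, `N ^ i H ^ t`, and `P (t - i - 1) H ^ t`.

In particular the conjecture holds for `X` if all classes are generated, for example if the ring `H ^ *`
is generated by the pullbacks of the cohomology of curves and surfaces and by Chern classes. Nothing is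
assumed about a lifting of `X` to a degeneration or to characteristic zero, nor hard Lefschetz.
-/

namespace Pool.Agent.Results.MP_f8720a_ag.GeneratedCohomology

open Pool.Agent.TH177.MW

universe u v

/-- **The conjecture of Kato holds for `H ^ j` if and only if `H ^ j` and `H ^ k`, `j + k = 2 n`, are
divisible by the powers of `N` modulo generated classes.** -/
theorem result {E : Type u} [Field E] [CharZero E] [IsAlgClosed E] {q : ℕ} (hq : 1 < q)
    (X : LogCohomologyRing.{u, v} E q) (Q : PureMaps X.toGroups) {j k : ℕ}
    (h : j + k = 2 * X.n) : X.KatoAt j ↔ X.DivisibleAt Q j ∧ X.DivisibleAt Q k :=
  LogCohomologyRing.main hq Q h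

/-- If all classes are generated, the conjecture of Kato holds for `X` in all degrees. -/
theorem of_generated {E : Type u} [Field E] [CharZero E] [IsAlgClosed E] {q : ℕ} (hq : 1 < q)
    (X : LogCohomologyRing.{u, v} E q) (Q : PureMaps X.toGroups)
    (hQ : ∀ j x, Generated Q j x) {j k : ℕ} (h : j + k = 2 * X.n) : X.KatoAt j := by
  have key : ∀ t, X.DivisibleAt Q t := by
    intro t i _ x _
    refine ⟨x, 0, hQ _ x, ?_⟩
    have h0 : (X.G t).Npow i 0 = 0 := map_zero ((X.G t).N ^ i)
    rw [h0, sub_self, sub_zero]
    exact Submodule.zero_mem _
  exact (result hq X Q h).2 ⟨key j, key k⟩

end Pool.Agent.Results.MP_f8720a_ag.GeneratedCohomology
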