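import Pool.Agent.TH121.RW.LogMain

/-!
# MP_f8720a_ag: Kato's log monodromy-weight conjecture and invariants of the log fundamental group

We consider the projective SNCL schemes `X` over the log points whose underlying schemes are spectra of
finite fields of characteristic `p`. `𝒯 : LogPointTheory E` lists the data and the known facts which
are used about their log `l`-adic cohomology (with coefficients in an algebraic closure `E` of `ℚ_l`);
no Lefschetz theorem is among them. As the graded pieces of the weight filtration `P` are pure over a
finite field, the statement Q1 (`P` is the monodromy filtration of `N`) says that the graded pieces of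
the monodromy filtration are pure of the right weights (`IsMwPure`). The following are equivalent:

1. Q1 holds for all these `X` and all `H ^ i`;
2. for all `X` and `i` the weights of the kernel of `N` on `H ^ i` are at most `i`;
3. for all `X` and `i` the number `i + 1` is not a weight of the kernel of `N` on `H ^ i`;
4. for all `X` of odd dimension `2 j - 1` the log fundamental group `π` of the log point has no nonzero
  invariants in `H ^ (2 j - 1) (j)`;
5. for all `X` of odd dimension `2 j - 1` the group `H ^ 1 (π, H ^ (2 j - 1) (j))` is zero.

For a single `X` we show: Q1 holds for `X`, in all degrees, if the weights of the kernel of `N` on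
`H ^ (2 i)` of `X × X` are at most `2 i` for all `i`, and so if the local invariant cycle theorem holds
in even degrees for an SNCL subdivision of `X × X`, that is, if the map from the cohomology of the
underlying scheme to the kernel of `N` is surjective.

The proof is by products with powers of log Tate curves, with projective lines and with abelian
varieties (Honda-Tate), and by vectors killed by `N` in the tensor product of `H ^ i` with itself.
-/

universe u v

namespace Pool.Agent.Results.MP_f8720a_ag.LogInvariants

open Pool.Agent.TH121.RW

/-- **Kato's log monodromy-weight conjecture over finite fields and the kernel of `N`.** -/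
theorem result {E : Type u} [Field E] [CharZero E] [IsAlgClosed E] (hE : Nonempty (E →+* ℂ))
    (𝒯 : LogPointTheory.{u, v} E) :
    [𝒯.MonodromyWeight, 𝒯.WeightsAtMost, 𝒯.NextWeightMissing, 𝒯.NoGaloisInvariants,
      𝒯.NoGaloisCohomology].TFAE ∧
    (∀ X, 𝒯.SquareWeightsAtMost X → 𝒯.QOneFor X) ∧
    (∀ X, (∀ i, 𝒯.LocalInvariantCycles (𝒯.square X) (i + i)) → 𝒯.QOneFor X) :=
  LogPointTheory.main 𝒯 hE

end Pool.Agent.Results.MP_f8720a_ag.LogInvariants
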